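import Pool.Agent.H97.SHL.Targets

/-! Row BLM. -/

set_option autoImplicit false

namespace Pool.Agent.H68.SHL

open Finset Pool.Agent.H97.SHL

variable {X : Type} [DecidableEq X] {𝓛 : Finset (Finset X)}

theorem bl_mono (t : ℕ) : ∀ {𝓑 𝓑' : Finset (Finset X)}, 𝓑 ⊆ 𝓑' → bl 𝓛 t 𝓑 ⊆ bl 𝓛 t 𝓑' := by
  induction t with
  | zero => exact fun h => h
  | succ t ih =>
    intro 𝓑 𝓑' h
    exact ih (union_subset_union h
      (union_subset_union (image₂_subset h (Subset.refl _)) (image₂_subset h (Subset.refl _))))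

theorem bl_le (t : ℕ) (𝓑 : Finset (Finset X)) : bl 𝓛 t 𝓑 ⊆ bl 𝓛 (t + 1) 𝓑 :=
  bl_mono t subset_union_left

theorem bl_card (t : ℕ) : ∀ 𝓑 : Finset (Finset X),
    (bl 𝓛 t 𝓑).card ≤ 𝓑.card * (2 * 𝓛.card + 1) ^ t := by
  induction t with
  | zero =>
    intro 𝓑
    show 𝓑.card ≤ _
    simp
  | succ t ih =>
    intro 𝓑
    refine (ih _).trans ?_
    have h1 : (𝓑 ∪ (image₂ (fun Q A => Q ∩ A) 𝓑 𝓛 ∪ image₂ (fun Q A => Q \ A) 𝓑 𝓛)).card ≤
        𝓑.card * (2 * 𝓛.card + 1) := by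
      refine (card_union_le _ _).trans ?_
      have h2 := card_union_le (image₂ (fun Q A => Q ∩ A) 𝓑 𝓛) (image₂ (fun Q A => Q \ A) 𝓑 𝓛)
      have h3 := card_image₂_le (fun Q A : Finset X => Q ∩ A) 𝓑 𝓛
      have h4 := card_image₂_le (fun Q A : Finset X => Q \ A) 𝓑 𝓛
      have h5 : 𝓑.card * (2 * 𝓛.card + 1) = 𝓑.card + (𝓑.card * 𝓛.card + 𝓑.card * 𝓛.card) := by
        ring
      omega
    calc _ ≤ 𝓑.card * (2 * 𝓛.card + 1) * (2 * 𝓛.card + 1) ^ t := Nat.mul_le_mul_right _ h1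
      _ = _ := by ring

theorem pf_BLM : T_BLM := by
  intro X _ 𝓛 𝓑 𝓑' t t' hB ht
  have hle : ∀ 𝓒 : Finset (Finset X), ∀ a b : ℕ, a ≤ b → bl 𝓛 a 𝓒 ⊆ bl 𝓛 b 𝓒 := by
    intro 𝓒 a b hab
    induction b, hab using Nat.le_induction with
    | base => exact Subset.refl _
    | succ b _ ih => exact ih.trans (bl_le b 𝓒)
  refine ⟨(bl_mono t hB).trans (hle 𝓑' t t' ht), hle 𝓑 0 t (Nat.zero_le t), ?_, bl_card t 𝓑⟩
  intro Q hQ A hA
  constructor
  · refine bl_mono t ?_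
    rw [singleton_subset_iff]
    exact mem_union_right _ (mem_union_left _ (mem_image₂_of_mem hQ hA))
  · refine bl_mono t ?_
    rw [singleton_subset_iff]
    exact mem_union_right _ (mem_union_right _ (mem_image₂_of_mem hQ hA))

end Pool.Agent.H68.SHL
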