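import Pool.Agent.H97.SHL.Targets

/-! Row GRP. -/

set_option autoImplicit false

namespace Pool.Agent.H68.SHL

open Finset Pool.Agent.H97.SHL

theorem pf_GRP (hAL3 : T_AL3) : T_GRP := by
  intro m q r a₀ g A hA hr y
  have h1 : ∑ M ∈ (Aᶜ).powerset.filter (fun M => M.card ≤ g), eA q A M y =
      ∑ M ∈ (univ : Finset (Finset (Fin m))).filter
        (fun M => M.card ≤ r ∧ ¬ g < (M \ A).card), eA q ∅ M y := by
    have h2 : ∀ M ∈ (Aᶜ).powerset.filter (fun M => M.card ≤ g),
        eA q A M y = ∑ M' ∈ A.powerset, eA q ∅ (M' ∪ M) y := by
      intro M hM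
      rw [mem_filter, mem_powerset] at hM
      have hd : Disjoint A M := by
        rw [Finset.disjoint_left]
        intro x hx hxM
        exact (mem_compl.1 (hM.1 hxM)) hx
      exact (hAL3 m q A M hd y).symm
    rw [Finset.sum_congr rfl h2, ← Finset.sum_product']
    refine Finset.sum_nbij' (fun p => p.2 ∪ p.1) (fun M => (M \ A, M ∩ A)) ?_ ?_ ?_ ?_ ?_
    · rintro ⟨M, M'⟩ h
      simp only [mem_product, mem_filter, mem_powerset] at h
      obtain ⟨⟨k1, k2⟩, k3⟩ := h
      simp only [mem_filter, mem_univ, true_and]
      have e1 : (M' ∪ M) \ A = M := by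
        ext x
        simp only [mem_sdiff, mem_union]
        constructor
        · rintro ⟨h | h, h'⟩
          · exact absurd (k3 h) h'
          · exact h
        · intro h
          exact ⟨Or.inr h, mem_compl.1 (k1 h)⟩
      have e2 := card_union_le M' M
      have e3 := card_le_card k3
      rw [e1]
      exact ⟨by omega, by omega⟩
    · intro M h
      simp only [mem_filter, mem_univ, true_and] at h
      simp only [mem_product, mem_filter, mem_powerset]
      refine ⟨⟨?_, by omega⟩, inter_subset_right⟩
      intro x hx
      exact mem_compl.2 (mem_sdiff.1 hx).2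
    · rintro ⟨M, M'⟩ h
      simp only [mem_product, mem_filter, mem_powerset] at h
      obtain ⟨⟨k1, k2⟩, k3⟩ := h
      refine Prod.ext ?_ ?_
      · ext x
        simp only [mem_sdiff, mem_union]
        constructor
        · rintro ⟨h | h, h'⟩
          · exact absurd (k3 h) h'
          · exact h
        · intro h
          exact ⟨Or.inr h, mem_compl.1 (k1 h)⟩
      · ext x
        simp only [mem_inter, mem_union]
        constructor
        · rintro ⟨h | h, h'⟩
          · exact h
          · exact absurd h' (mem_compl.1 (k1 h))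
        · intro h
          exact ⟨Or.inl h, k3 h⟩
    · intro M _
      show M ∩ A ∪ M \ A = M
      ext x
      simp only [mem_inter, mem_union, mem_sdiff]
      tauto
    · rintro ⟨M, M'⟩ _
      rfl
  rw [h1]
  unfold DD
  rw [← Finset.sum_filter_add_sum_filter_not
    ((univ : Finset (Finset (Fin m))).filter fun M => M.card ≤ r) (fun M => ¬ g < (M \ A).card)]
  rw [filter_filter, filter_filter]
  simp only [not_not]

end Pool.Agent.H68.SHL
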